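import Mathlib

set_option autoImplicit false
set_option linter.all false

namespace Pool.Agent.Results.MP_606b74_al.NoPolynomialBound

open Matrix
open scoped commutatorElement

variable {m k : ℕ}

/-- Index set: blocks of sizes `3, m, 3, k`. -/
abbrev I (m k : ℕ) : Type := Fin 3 ⊕ (Fin m ⊕ (Fin 3 ⊕ Fin k))

/-- Number of the block. -/
def blk : I m k → ℕ
  | Sum.inl _ => 0
  | Sum.inr (Sum.inl _) => 1
  | Sum.inr (Sum.inr (Sum.inl _)) => 2
  | Sum.inr (Sum.inr (Sum.inr _)) => 3

/-- Positions of the elementary matrices. -/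
def R (i j : I m k) : Prop := i ≠ j ∧ (blk i < blk j ∨ (blk i = blk j ∧ (blk i = 0 ∨ blk i = 2)))

/-- The ambient group. -/
abbrev GU (m k : ℕ) : Type := (Matrix (I m k) (I m k) (ZMod 2))ˣ

theorem tv_sq {i j : I m k} (h : i ≠ j) :
    transvection i j (1 : ZMod 2) * transvection i j 1 = 1 := by
  rw [transvection_mul_transvection_same i j h]
  rw [show (1 : ZMod 2) + 1 = 0 from rfl, transvection_zero]

/-- The elementary matrix as a unit. -/
def T (i j : I m k) (h : i ≠ j) : GU m k := ⟨transvection i j 1, transvection i j 1, tv_sq h, tv_sq h⟩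

/-- The generators. -/
def S (m k : ℕ) : Set (GU m k) := {u | ∃ (i j : I m k) (h : R i j), u = T i j h.1}

/-- The subgroup. -/
def K (m k : ℕ) : Subgroup (GU m k) := Subgroup.closure (S m k)

theorem T_mem {i j : I m k} (h : R i j) : T i j h.1 ∈ K m k :=
  Subgroup.subset_closure ⟨i, j, h, rfl⟩

theorem comm_id {n : Type} [Fintype n] [DecidableEq n] (A B : Matrix n n (ZMod 2))
    (hA : A * A = 0) (hB : B * B = 0) (hBA : B * A = 0) :
    (1 + A) * (1 + B) * (1 + A) * (1 + B) = 1 + A * B := by
  have h2 : ∀ X : Matrix n n (ZMod 2), X + X = 0 := by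
    intro X
    ext i j
    exact CharTwo.add_self_eq_zero _
  have e1 : (1 + A) * (1 + B) * (1 + A) * (1 + B) =
      1 + (A + A) + (B + B) + (A * B + A * B) + A * B + A * A + (A * A) * B + B * A + (B * A) * B +
      B * B + A * (B * A) + A * (B * A) * B + A * (B * B) := by
    noncomm_ring
  rw [e1, hA, hB, hBA, h2 A, h2 B, h2 (A * B)]
  simp

theorem exists_mid {i j : I m k} (h : R i j) : ∃ l : I m k, R i l ∧ R l j := by
  obtain ⟨hne, h⟩ := h
  have h3 : ∀ a b : Fin 3, ∃ c : Fin 3, c ≠ a ∧ c ≠ b := by decide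
  rcases i with i | i | i | i <;> rcases j with j | j | j | j <;>
    simp only [blk, lt_self_iff_false, Nat.not_lt_zero, false_or, or_false, false_and, and_false,
      true_and, and_true, or_true, true_or, Nat.reduceLT, Nat.reduceEqDiff, reduceCtorEq,
      one_ne_zero, zero_ne_one, OfNat.ofNat_ne_zero, OfNat.ofNat_ne_one,
      OfNat.one_ne_ofNat, OfNat.zero_ne_ofNat] at h
  · obtain ⟨c, hc1, hc2⟩ := h3 i j
    exact ⟨Sum.inl c, ⟨by simpa using hc1.symm, by simp [blk]⟩, ⟨by simpa using hc2, by simp [blk]⟩⟩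
  · obtain ⟨c, hc1, hc2⟩ := h3 i i
    exact ⟨Sum.inl c, ⟨by simpa using hc1.symm, by simp [blk]⟩, ⟨by simp, by simp [blk]⟩⟩
  · obtain ⟨c, hc1, hc2⟩ := h3 i i
    exact ⟨Sum.inl c, ⟨by simpa using hc1.symm, by simp [blk]⟩, ⟨by simp, by simp [blk]⟩⟩
  · obtain ⟨c, hc1, hc2⟩ := h3 i i
    exact ⟨Sum.inl c, ⟨by simpa using hc1.symm, by simp [blk]⟩, ⟨by simp, by simp [blk]⟩⟩
  · obtain ⟨c, hc1, hc2⟩ := h3 j j
    exact ⟨Sum.inr (Sum.inr (Sum.inl c)), ⟨by simp, by simp [blk]⟩,
      ⟨by simpa using hc1, by simp [blk]⟩⟩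
  · exact ⟨Sum.inr (Sum.inr (Sum.inl 0)), ⟨by simp, by simp [blk]⟩, ⟨by simp, by simp [blk]⟩⟩
  · obtain ⟨c, hc1, hc2⟩ := h3 i j
    exact ⟨Sum.inr (Sum.inr (Sum.inl c)), ⟨by simpa using hc1.symm, by simp [blk]⟩,
      ⟨by simpa using hc2, by simp [blk]⟩⟩
  · obtain ⟨c, hc1, hc2⟩ := h3 i i
    exact ⟨Sum.inr (Sum.inr (Sum.inl c)), ⟨by simpa using hc1.symm, by simp [blk]⟩,
      ⟨by simp, by simp [blk]⟩⟩

theorem T_comm {i l j : I m k} (h1 : R i l) (h2 : R l j) (h : i ≠ j) :
    ⁅T i l h1.1, T l j h2.1⁆ = T i j h := by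
  apply Units.ext
  have e : ((⁅T i l h1.1, T l j h2.1⁆ : GU m k) : Matrix (I m k) (I m k) (ZMod 2)) =
      transvection i l 1 * transvection l j 1 * transvection i l 1 * transvection l j 1 := rfl
  rw [e]
  show _ = transvection i j 1
  unfold transvection
  have a1 : (Matrix.single i l (1 : ZMod 2)) * Matrix.single i l 1 = 0 :=
    Matrix.single_mul_single_of_ne _ _ _ _ h1.1.symm _
  have a2 : (Matrix.single l j (1 : ZMod 2)) * Matrix.single l j 1 = 0 :=
    Matrix.single_mul_single_of_ne _ _ _ _ h2.1.symm _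
  have a3 : (Matrix.single l j (1 : ZMod 2)) * Matrix.single i l 1 = 0 :=
    Matrix.single_mul_single_of_ne _ _ _ _ h.symm _
  rw [comm_id _ _ a1 a2 a3, Matrix.single_mul_single_same, one_mul]

theorem perfect (m k : ℕ) : commutator (K m k) = ⊤ := by
  have h1 : K m k ≤ ⁅K m k, K m k⁆ := by
    show Subgroup.closure (S m k) ≤ _
    rw [Subgroup.closure_le]
    rintro u ⟨i, j, h, rfl⟩
    obtain ⟨l, h1, h2⟩ := exists_mid h
    rw [← T_comm h1 h2 h.1]
    exact Subgroup.commutator_mem_commutator (T_mem h1) (T_mem h2)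
  have h2 := Subgroup.map_subtype_commutator (K m k)
  rw [eq_top_iff]
  intro x _
  have h3 : (x : GU m k) ∈ (commutator (K m k)).map (K m k).subtype := by
    rw [h2]; exact h1 x.2
  obtain ⟨y, hy, hxy⟩ := h3
  have : y = x := Subtype.ext hxy
  rw [← this]; exact hy

/-- The positions where elements of the group agree with the identity. -/
def Zp (a b : I m k) : Prop := blk b < blk a ∨ (blk a = blk b ∧ blk a ≠ 0 ∧ blk a ≠ 2)

def P (x : Matrix (I m k) (I m k) (ZMod 2)) : Prop :=
  ∀ a b, Zp a b → x a b = (1 : Matrix (I m k) (I m k) (ZMod 2)) a b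

theorem P_mul {x y : Matrix (I m k) (I m k) (ZMod 2)} (hx : P x) (hy : P y) : P (x * y) := by
  intro a b hab
  have key : ∀ c, x a c * y c b =
      (1 : Matrix (I m k) (I m k) (ZMod 2)) a c * (1 : Matrix (I m k) (I m k) (ZMod 2)) c b := by
    intro c
    rcases hab with h | ⟨h1, h2⟩
    · rcases lt_or_ge (blk c) (blk a) with h3 | h3
      · have hc : a ≠ c := by rintro rfl; exact lt_irrefl _ h3
        rw [hx a c (Or.inl h3), Matrix.one_apply_ne hc, zero_mul, zero_mul]
      · have h4 : blk b < blk c := lt_of_lt_of_le h h3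
        have hc : c ≠ b := by rintro rfl; exact lt_irrefl _ h4
        rw [hy c b (Or.inl h4), Matrix.one_apply_ne hc, mul_zero, mul_zero]
    · rcases lt_trichotomy (blk c) (blk a) with h3 | h3 | h3
      · have hc : a ≠ c := by rintro rfl; exact lt_irrefl _ h3
        rw [hx a c (Or.inl h3), Matrix.one_apply_ne hc, zero_mul, zero_mul]
      · rw [hx a c (Or.inr ⟨h3.symm, h2⟩), hy c b (Or.inr ⟨h3.trans h1, by rw [h3]; exact h2⟩)]
      · have h4 : blk b < blk c := h1 ▸ h3
        have hc : c ≠ b := by rintro rfl; exact lt_irrefl _ h4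
        rw [hy c b (Or.inl h4), Matrix.one_apply_ne hc, mul_zero, mul_zero]
  rw [Matrix.mul_apply, Finset.sum_congr rfl (fun c _ => key c), ← Matrix.mul_apply, mul_one]

theorem P_T {i j : I m k} (h : R i j) : P (transvection i j (1 : ZMod 2)) := by
  intro a b hab
  unfold transvection
  rw [Matrix.add_apply]
  have : Matrix.single i j (1 : ZMod 2) a b = 0 := by
    rw [Matrix.single_apply]
    rw [if_neg]
    rintro ⟨rfl, rfl⟩
    obtain ⟨h1, h2⟩ := h
    rcases hab with h3 | h3 <;> rcases h2 with h4 | h4 <;> omega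
  rw [this, add_zero]

theorem P_pow {x : Matrix (I m k) (I m k) (ZMod 2)} (hx : P x) (n : ℕ) : P (x ^ n) := by
  induction n with
  | zero => rw [pow_zero]; intro a b _; rfl
  | succ n ih => rw [pow_succ]; exact P_mul ih hx

theorem P_mem {x : GU m k} (hx : x ∈ K m k) : P (x : Matrix (I m k) (I m k) (ZMod 2)) := by
  induction hx using Subgroup.closure_induction with
  | mem x hx => obtain ⟨i, j, h, rfl⟩ := hx; exact P_T h
  | one => intro a b _; rfl
  | mul x y _ _ h1 h2 => exact P_mul h1 h2
  | inv x _ h =>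
    have h0 : 0 < orderOf x := orderOf_pos x
    have h1 : x⁻¹ = x ^ (orderOf x - 1) := by
      rw [inv_eq_iff_mul_eq_one, ← pow_succ', Nat.sub_add_cancel h0, pow_orderOf_eq_one]
    rw [h1, Units.val_pow_eq_pow_val]
    exact P_pow h _


theorem exists_above (j : I m k) : ∃ i : I m k, R i j := by
  rcases j with j | j | j | j
  · obtain ⟨c, hc⟩ : ∃ c : Fin 3, c ≠ j := by revert j; decide
    exact ⟨Sum.inl c, by simpa using hc, by simp [blk]⟩
  · exact ⟨Sum.inl 0, by simp, by simp [blk]⟩
  · exact ⟨Sum.inl 0, by simp, by simp [blk]⟩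
  · exact ⟨Sum.inl 0, by simp, by simp [blk]⟩

theorem centre (m k : ℕ) : Subgroup.center (K m k) = ⊥ := by
  rw [eq_bot_iff]
  intro x hx
  rw [Subgroup.mem_center_iff] at hx
  have h1 : ∀ i j b : I m k, R i j → b ≠ j → (x : GU m k).val j b = 0 := by
    intro i j b h hb
    have h2 := hx ⟨T i j h.1, T_mem h⟩
    have h3 : transvection i j (1 : ZMod 2) * (x : GU m k).val =
        (x : GU m k).val * transvection i j 1 := congrArg (fun y : K m k => (y : GU m k).val) h2
    unfold transvection at h3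
    rw [add_mul, mul_add, one_mul, mul_one, add_right_inj] at h3
    have h4 := congrFun (congrFun h3 i) b
    rw [Matrix.single_mul_apply_same, Matrix.mul_single_apply_of_ne _ _ _ _ _ hb, one_mul] at h4
    exact h4
  have h2 : ∀ j b : I m k, b ≠ j → (x : GU m k).val j b = 0 := by
    intro j b hb
    obtain ⟨i, hi⟩ := exists_above j
    exact h1 i j b hi hb
  have h3 : ∀ j : I m k, (x : GU m k).val j j = 1 := by
    intro j
    have h4 : ((x : GU m k).val * (x : GU m k).inv) j j = 1 := by
      rw [(x : GU m k).val_inv]; exact Matrix.one_apply_eq j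
    rw [Matrix.mul_apply, Finset.sum_eq_single j] at h4
    · have h5 : (x : GU m k).val j j ≠ 0 := by
        intro h6; rw [h6, zero_mul] at h4; exact zero_ne_one h4
      have h7 : ∀ z : ZMod 2, z ≠ 0 → z = 1 := by decide
      exact h7 _ h5
    · intro b _ hb
      rw [h2 j b hb, zero_mul]
    · intro h; exact absurd (Finset.mem_univ _) h
  rw [Subgroup.mem_bot]
  apply Subtype.ext
  apply Units.ext
  ext a b
  by_cases hab : b = a
  · subst hab
    rw [h3]
    exact (Matrix.one_apply_eq b).symm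
  · rw [h2 a b hab]
    exact (Matrix.one_apply_ne (fun h => hab h.symm)).symm

/-- Embedding of the first three blocks. -/
def emb : Fin 3 ⊕ (Fin m ⊕ Fin 3) → I m k
  | Sum.inl i => Sum.inl i
  | Sum.inr (Sum.inl i) => Sum.inr (Sum.inl i)
  | Sum.inr (Sum.inr i) => Sum.inr (Sum.inr (Sum.inl i))

theorem card_le (m k : ℕ) : Nat.card (K m k) ≤ 2 ^ ((m + 6) * (m + 6 + k)) := by
  let f : K m k → ((Fin 3 ⊕ (Fin m ⊕ Fin 3)) × I m k → ZMod 2) :=
    fun x p => (x : GU m k).val (emb p.1) p.2
  have hf : Function.Injective f := by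
    intro x y hxy
    apply Subtype.ext
    apply Units.ext
    ext a b
    have h1 : ∀ c, (x : GU m k).val (emb c) b = (y : GU m k).val (emb c) b :=
      fun c => congrFun hxy (c, b)
    rcases a with a | a | a | a
    · exact h1 (Sum.inl a)
    · exact h1 (Sum.inr (Sum.inl a))
    · exact h1 (Sum.inr (Sum.inr a))
    · have hz : Zp (Sum.inr (Sum.inr (Sum.inr a)) : I m k) b := by
        rcases b with b | b | b | b
        · left; simp [blk]
        · left; simp [blk]
        · left; simp [blk]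
        · right; simp [blk]
      rw [P_mem x.2 _ b hz, P_mem y.2 _ b hz]
  have h1 := Nat.card_le_card_of_injective f hf
  refine h1.trans (le_of_eq ?_)
  rw [Nat.card_eq_fintype_card, Fintype.card_fun, Fintype.card_prod]
  simp only [Fintype.card_sum, Fintype.card_fin, ZMod.card]
  congr 1
  ring

/-- The parameter space of the elements `1 + N w`. -/
abbrev Wt (m k : ℕ) : Type := (Fin 3 ⊕ Fin m) × Fin k → ZMod 2

/-- The matrix supported on (blocks 0 and 1) times block 3. -/
def N (w : Wt m k) : Matrix (I m k) (I m k) (ZMod 2) := fun a b =>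
  match a, b with
  | Sum.inl i, Sum.inr (Sum.inr (Sum.inr j)) => w (Sum.inl i, j)
  | Sum.inr (Sum.inl i), Sum.inr (Sum.inr (Sum.inr j)) => w (Sum.inr i, j)
  | _, _ => 0

theorem N_add (w w' : Wt m k) : N (w + w') = N w + N w' := by
  ext a b
  rcases a with a | a | a | a <;> rcases b with b | b | b | b <;> simp [N]

theorem N_zero : N (0 : Wt m k) = 0 := by
  ext a b
  rcases a with a | a | a | a <;> rcases b with b | b | b | b <;> simp [N]

theorem N_eq_zero_left (w : Wt m k) (a c : I m k) (h : blk c ≠ 3) : N w a c = 0 := by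
  rcases a with a | a | a | a <;> rcases c with c | c | c | c <;> simp_all [N, blk]

theorem N_eq_zero_right (w : Wt m k) (a c : I m k) (h : 2 ≤ blk a) : N w a c = 0 := by
  rcases a with a | a | a | a <;> rcases c with c | c | c | c <;> simp_all [N, blk]

theorem N_mul (w w' : Wt m k) : N w * N w' = 0 := by
  ext a b
  rw [Matrix.mul_apply]
  apply Finset.sum_eq_zero
  intro c _
  by_cases h : blk c = 3
  · rw [N_eq_zero_right w' c b (by omega), mul_zero]
  · rw [N_eq_zero_left w a c h, zero_mul]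

theorem oneN_mul (w w' : Wt m k) : (1 + N w) * (1 + N w') = 1 + N (w + w') := by
  rw [add_mul, mul_add, mul_add, N_mul, N_add, mul_one, one_mul, mul_one, add_zero]
  abel

theorem w_self (w : Wt m k) : w + w = 0 := by
  funext p
  exact CharTwo.add_self_eq_zero _

/-- The homomorphism `w ↦ 1 + N w`. -/
def U : Multiplicative (Wt m k) →* GU m k where
  toFun w := ⟨1 + N (Multiplicative.toAdd w), 1 + N (Multiplicative.toAdd w),
    by rw [oneN_mul, w_self, N_zero, add_zero], by rw [oneN_mul, w_self, N_zero, add_zero]⟩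
  map_one' := by
    apply Units.ext
    show 1 + N (0 : Wt m k) = 1
    rw [N_zero, add_zero]
  map_mul' x y := by
    apply Units.ext
    exact (oneN_mul _ _).symm

theorem N_inj {w w' : Wt m k} (h : N w = N w') : w = w' := by
  funext p
  obtain ⟨i, j⟩ := p
  rcases i with i | i
  · exact congrFun (congrFun h (Sum.inl i)) (Sum.inr (Sum.inr (Sum.inr j)))
  · exact congrFun (congrFun h (Sum.inr (Sum.inl i))) (Sum.inr (Sum.inr (Sum.inr j)))

theorem U_inj : Function.Injective (U : Multiplicative (Wt m k) →* GU m k) := by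
  intro w w' h
  have h1 : (1 : Matrix (I m k) (I m k) (ZMod 2)) + N (Multiplicative.toAdd w) =
      1 + N (Multiplicative.toAdd w') := congrArg Units.val h
  exact N_inj (add_left_cancel h1)

theorem N_single_inl (i : Fin 3) (j : Fin k) : N (Pi.single (Sum.inl i, j) 1 : Wt m k) =
    Matrix.single (Sum.inl i) (Sum.inr (Sum.inr (Sum.inr j))) 1 := by
  ext a b
  rcases a with a | a | a | a <;> rcases b with b | b | b | b <;>
    simp [N, Matrix.single_apply, Pi.single_apply, Prod.ext_iff, eq_comm]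

theorem N_single_inr (i : Fin m) (j : Fin k) : N (Pi.single (Sum.inr i, j) 1 : Wt m k) =
    Matrix.single (Sum.inr (Sum.inl i)) (Sum.inr (Sum.inr (Sum.inr j))) 1 := by
  ext a b
  rcases a with a | a | a | a <;> rcases b with b | b | b | b <;>
    simp [N, Matrix.single_apply, Pi.single_apply, Prod.ext_iff, eq_comm]

theorem U_single_mem (p : (Fin 3 ⊕ Fin m) × Fin k) :
    U (Multiplicative.ofAdd (Pi.single p 1 : Wt m k)) ∈ K m k := by
  obtain ⟨i, j⟩ := p
  rcases i with i | i
  · have hR : R (Sum.inl i : I m k) (Sum.inr (Sum.inr (Sum.inr j))) := ⟨by simp, by simp [blk]⟩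
    have : U (Multiplicative.ofAdd (Pi.single (Sum.inl i, j) 1 : Wt m k)) = T _ _ hR.1 := by
      apply Units.ext
      show 1 + N (Pi.single (Sum.inl i, j) 1 : Wt m k) = transvection _ _ _
      rw [N_single_inl]; rfl
    rw [this]; exact T_mem hR
  · have hR : R (Sum.inr (Sum.inl i) : I m k) (Sum.inr (Sum.inr (Sum.inr j))) :=
      ⟨by simp, by simp [blk]⟩
    have : U (Multiplicative.ofAdd (Pi.single (Sum.inr i, j) 1 : Wt m k)) = T _ _ hR.1 := by
      apply Units.ext
      show 1 + N (Pi.single (Sum.inr i, j) 1 : Wt m k) = transvection _ _ _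
      rw [N_single_inr]; rfl
    rw [this]; exact T_mem hR

theorem U_mem (w : Wt m k) : U (Multiplicative.ofAdd w) ∈ K m k := by
  have h1 : w = ∑ p, Pi.single p (w p) := (Finset.univ_sum_single w).symm
  show Multiplicative.ofAdd w ∈ (K m k).comap U
  rw [h1, ofAdd_sum]
  apply Subgroup.prod_mem
  intro p _
  show U (Multiplicative.ofAdd (Pi.single p (w p))) ∈ K m k
  have h2 : w p = 0 ∨ w p = 1 := by
    have : ∀ z : ZMod 2, z = 0 ∨ z = 1 := by decide
    exact this _
  rcases h2 with h2 | h2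
  · rw [h2, Pi.single_zero, ofAdd_zero, map_one]; exact Subgroup.one_mem _
  · rw [h2]; exact U_single_mem p

/-- The obstruction for `1 + N w` to commute with `x`. -/
def F (x : Matrix (I m k) (I m k) (ZMod 2)) : Wt m k →+ (Fin 3 × Fin k → ZMod 2) where
  toFun w := fun p => (x * N w - N w) (Sum.inl p.1) (Sum.inr (Sum.inr (Sum.inr p.2)))
  map_zero' := by
    funext p
    rw [N_zero]; simp
  map_add' w w' := by
    funext p
    rw [N_add, mul_add]
    simp only [Matrix.sub_apply, Matrix.add_apply, Pi.add_apply]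
    ring

theorem N_left (x : Matrix (I m k) (I m k) (ZMod 2)) (hx : P x) (w : Wt m k) : N w * x = N w := by
  ext a b
  rw [Matrix.mul_apply]
  have : ∀ c, N w a c * x c b = N w a c * (1 : Matrix (I m k) (I m k) (ZMod 2)) c b := by
    intro c
    by_cases h : blk c = 3
    · have hz : Zp c b := by
        unfold Zp
        rw [h]
        rcases b with b | b | b | b <;> simp [blk]
      rw [hx c b hz]
    · rw [N_eq_zero_left w a c h, zero_mul, zero_mul]
  rw [Finset.sum_congr rfl (fun c _ => this c), ← Matrix.mul_apply, mul_one]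

theorem N_right (x : Matrix (I m k) (I m k) (ZMod 2)) (hx : P x) (w : Wt m k) (hw : F x w = 0) :
    x * N w = N w := by
  ext a b
  by_cases hb : blk b = 3
  · rcases b with b | b | b | b
    · simp [blk] at hb
    · simp [blk] at hb
    · simp [blk] at hb
    · by_cases ha : blk a = 0
      · rcases a with a | a | a | a
        · have := congrFun hw (a, b)
          have h2 : (x * N w - N w) (Sum.inl a) (Sum.inr (Sum.inr (Sum.inr b))) = 0 := this
          rw [Matrix.sub_apply, sub_eq_zero] at h2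
          exact h2
        · simp [blk] at ha
        · simp [blk] at ha
        · simp [blk] at ha
      · rw [Matrix.mul_apply]
        have : ∀ c, x a c * N w c (Sum.inr (Sum.inr (Sum.inr b))) =
            (1 : Matrix (I m k) (I m k) (ZMod 2)) a c * N w c (Sum.inr (Sum.inr (Sum.inr b))) := by
          intro c
          by_cases hc : 2 ≤ blk c
          · rw [N_eq_zero_right w c _ hc, mul_zero, mul_zero]
          · have hz : Zp a c := by
              unfold Zp
              omega
            rw [hx a c hz]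
        rw [Finset.sum_congr rfl (fun c _ => this c), ← Matrix.mul_apply, one_mul]
  · rw [N_eq_zero_left w a b hb, Matrix.mul_apply]
    apply Finset.sum_eq_zero
    intro c _
    rw [N_eq_zero_left w c b hb, mul_zero]

theorem card_ker (x : Matrix (I m k) (I m k) (ZMod 2)) : 2 ^ (m * k) ≤ Nat.card (F x).ker := by
  have h1 : Nat.card (Wt m k) = Nat.card (Wt m k ⧸ (F x).ker) * Nat.card (F x).ker :=
    AddSubgroup.card_eq_card_quotient_mul_card_addSubgroup _
  have h2 : Nat.card (Wt m k ⧸ (F x).ker) = Nat.card (F x).range :=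
    Nat.card_congr (QuotientAddGroup.quotientKerEquivRange (F x)).toEquiv
  have h3 : Nat.card (F x).range ≤ 2 ^ (3 * k) := by
    have h4 := Nat.card_le_card_of_injective (Subtype.val : (F x).range → (Fin 3 × Fin k → ZMod 2))
      Subtype.val_injective
    refine h4.trans (le_of_eq ?_)
    rw [Nat.card_eq_fintype_card, Fintype.card_fun, Fintype.card_prod]
    simp only [Fintype.card_fin, ZMod.card]
  have h5 : Nat.card (Wt m k) = 2 ^ ((3 + m) * k) := by
    rw [Nat.card_eq_fintype_card, Fintype.card_fun, Fintype.card_prod]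
    simp only [Fintype.card_sum, Fintype.card_fin, ZMod.card]
  rw [h2, h5] at h1
  have h6 : 2 ^ (3 * k) * 2 ^ (m * k) ≤ 2 ^ (3 * k) * Nat.card (F x).ker := by
    rw [← pow_add, ← add_mul, h1]
    exact Nat.mul_le_mul_right _ h3
  exact Nat.le_of_mul_le_mul_left h6 (by positivity)

theorem card_centralizer (x : K m k) :
    2 ^ (m * k) ≤ Nat.card (Subgroup.centralizer ({x} : Set (K m k))) := by
  refine (card_ker (x : GU m k).val).trans ?_
  let f : (F (x : GU m k).val).ker → Subgroup.centralizer ({x} : Set (K m k)) := fun w =>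
    ⟨⟨U (Multiplicative.ofAdd w.1), U_mem w.1⟩, by
      rw [Subgroup.mem_centralizer_singleton_iff]
      apply Subtype.ext
      apply Units.ext
      show (1 + N w.1) * (x : GU m k).val = (x : GU m k).val * (1 + N w.1)
      rw [add_mul, mul_add, one_mul, mul_one, N_left _ (P_mem x.2), N_right _ (P_mem x.2) _ w.2]⟩
  refine Nat.card_le_card_of_injective f ?_
  intro w w' h
  have h1 : U (Multiplicative.ofAdd w.1) = U (Multiplicative.ofAdd w'.1) :=
    congrArg (fun y : Subgroup.centralizer ({x} : Set (K m k)) => ((y : K m k) : GU m k)) h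
  exact Subtype.ext (U_inj h1)

theorem card_class (G : Type) [Group G] [Finite G] (x : G) :
    Nat.card {y : G // IsConj x y} * Nat.card (Subgroup.centralizer ({x} : Set G)) = Nat.card G := by
  have hs : ∀ y : {y : G // IsConj x y}, ∃ s : G, s * x * s⁻¹ = y.1 := fun y => isConj_iff.1 y.2
  choose s hs using hs
  rw [← Nat.card_prod]
  refine Nat.card_congr ?_
  refine
    { toFun := fun p => s p.1 * p.2.1
      invFun := fun g => (⟨g * x * g⁻¹, isConj_iff.2 ⟨g, rfl⟩⟩,
        ⟨(s ⟨g * x * g⁻¹, isConj_iff.2 ⟨g, rfl⟩⟩)⁻¹ * g, ?_⟩)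
      left_inv := ?_
      right_inv := ?_ }
  · rw [Subgroup.mem_centralizer_singleton_iff]
    have h1 := hs ⟨g * x * g⁻¹, isConj_iff.2 ⟨g, rfl⟩⟩
    set t := s ⟨g * x * g⁻¹, isConj_iff.2 ⟨g, rfl⟩⟩
    simp only at h1
    have h2 : g * x = t * x * t⁻¹ * g := by rw [h1]; group
    calc t⁻¹ * g * x = t⁻¹ * (g * x) := by group
      _ = t⁻¹ * (t * x * t⁻¹ * g) := by rw [h2]
      _ = x * (t⁻¹ * g) := by group
  · rintro ⟨y, z, hz⟩
    rw [Subgroup.mem_centralizer_singleton_iff] at hz
    have h1 : (s y * z) * x * (s y * z)⁻¹ = y.1 := by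
      calc (s y * z) * x * (s y * z)⁻¹ = s y * (z * x) * z⁻¹ * (s y)⁻¹ := by group
        _ = s y * (x * z) * z⁻¹ * (s y)⁻¹ := by rw [hz]
        _ = s y * x * (s y)⁻¹ := by group
        _ = y.1 := hs y
    have h2 : (⟨(s y * z) * x * (s y * z)⁻¹, isConj_iff.2 ⟨s y * z, rfl⟩⟩ :
        {y : G // IsConj x y}) = y := Subtype.ext h1
    apply Prod.ext
    · exact h2
    · apply Subtype.ext
      show (s ⟨(s y * z) * x * (s y * z)⁻¹, _⟩)⁻¹ * (s y * z) = z
      rw [h2]
      group
  · intro g
    show s _ * ((s _)⁻¹ * g) = g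
    group

/-- For every exponent `N` there is a finite perfect centreless group `G` with `n(G) ^ N < |G|`. -/
theorem result (N : ℕ) : ∃ (G : Type) (_ : Group G), Finite G ∧ commutator G = ⊤ ∧
    Subgroup.center G = ⊥ ∧ (⨆ x : G, Nat.card {y : G // IsConj x y}) ^ N < Nat.card G := by
  set m : ℕ := 6 * N + 1 with hm
  set k : ℕ := N * (m + 6) * (m + 6) + 1 with hk
  refine ⟨K m k, inferInstance, inferInstance, perfect m k, centre m k, ?_⟩
  obtain ⟨x, hx⟩ := exists_eq_ciSup_of_finite (f := fun x : K m k => Nat.card {y : K m k // IsConj x y})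
  rw [← hx]
  have h1 := card_class (K m k) x
  have h2 := card_centralizer x
  have h3 := card_le m k
  set c := Nat.card {y : K m k // IsConj x y}
  set z := Nat.card (Subgroup.centralizer ({x} : Set (K m k)))
  have h4 : c ≤ 2 ^ ((m + 6) * (m + 6) + 6 * k) := by
    have h5 : c * 2 ^ (m * k) ≤ 2 ^ ((m + 6) * (m + 6) + 6 * k) * 2 ^ (m * k) := by
      calc c * 2 ^ (m * k) ≤ c * z := Nat.mul_le_mul_left _ h2
        _ = Nat.card (K m k) := h1
        _ ≤ 2 ^ ((m + 6) * (m + 6 + k)) := h3
        _ = 2 ^ ((m + 6) * (m + 6) + 6 * k) * 2 ^ (m * k) := by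
          rw [← pow_add]; congr 1; ring
    exact Nat.le_of_mul_le_mul_right h5 (by positivity)
  have h6 : c ^ N ≤ 2 ^ (((m + 6) * (m + 6) + 6 * k) * N) := by
    rw [pow_mul]; exact Nat.pow_le_pow_left h4 N
  have h7 : ((m + 6) * (m + 6) + 6 * k) * N < m * k := by
    have : m * k = 6 * N * k + k := by rw [hm]; ring
    rw [this]
    have h8 : ((m + 6) * (m + 6) + 6 * k) * N = 6 * N * k + N * (m + 6) * (m + 6) := by ring
    rw [h8]
    omega
  have h9 : 2 ^ (((m + 6) * (m + 6) + 6 * k) * N) < 2 ^ (m * k) :=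
    Nat.pow_lt_pow_right (by norm_num) h7
  have h10 : 1 ≤ c := by
    by_contra hc
    have : c = 0 := by omega
    rw [this, zero_mul] at h1
    exact absurd h1.symm (Nat.card_pos.ne')
  calc c ^ N ≤ 2 ^ (((m + 6) * (m + 6) + 6 * k) * N) := h6
    _ < 2 ^ (m * k) := h9
    _ ≤ z := h2
    _ ≤ c * z := Nat.le_mul_of_pos_left _ h10
    _ = Nat.card (K m k) := h1

end Pool.Agent.Results.MP_606b74_al.NoPolynomialBound
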